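import Pool.Agent.R105.PE.Fam

/-!
# Binomials in `x` and `t`
-/

set_option autoImplicit false

namespace Pool.Agent.R105.PE

open Polynomial Pool.Agent.R356 Pool.Agent.TH456.TM

/-- the determinant -/
def det2 (P Q : ℚ × ℚ) : ℚ := P.1 * Q.2 - P.2 * Q.1

/-- the monomial `x ^ p t ^ q` -/
noncomputable def mono (x t : ℝ) (P : ℚ × ℚ) : ℝ := x ^ (P.1 : ℝ) * t ^ (P.2 : ℝ)

/-- monomials and binomials -/
inductive Mb : Type
  | mon (P : ℚ × ℚ) : Mb
  | bin (P Q : ℚ × ℚ) (a : ℝ) : Mb

/-- their values -/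
noncomputable def bval (x t : ℝ) : Mb → ℝ
  | Mb.mon P => mono x t P
  | Mb.bin P Q a => mono x t P + a * mono x t Q

/-- the members of the family -/
def BAdm (x t : ℝ) : Mb → Prop
  | Mb.mon P => P ≠ 0
  | Mb.bin P Q a => det2 P Q ≠ 0 ∧ a ≠ 0 ∧ IsAlgebraic ℚ a ∧ mono x t P + a * mono x t Q ≠ 0

/-- the triangles with the vertices `0, P, Q` and `0, P', Q'` are translates of each other -/
def Transl (P Q P' Q' : ℚ × ℚ) : Prop :=
  (P' = P ∧ Q' = Q) ∨ (P' = Q ∧ Q' = P) ∨ (P' = -Q ∧ Q' = P - Q) ∨ (P' = P - Q ∧ Q' = -Q) ∨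
    (P' = -P ∧ Q' = Q - P) ∨ (P' = Q - P ∧ Q' = -P)

/-- the members that are not covered -/
def Dep : Mb → Mb → Prop
  | Mb.mon P, Mb.mon Q => det2 P Q = 0
  | Mb.bin P Q a, Mb.bin P' Q' a' => Transl P Q P' Q' ∧ (P' = P → Q' = Q → a' = a)
  | _, _ => False

lemma mono_pos (x t : ℝ) (hx : 0 < x) (ht : 0 < t) (P : ℚ × ℚ) : 0 < mono x t P :=
  mul_pos (Real.rpow_pos_of_pos hx _) (Real.rpow_pos_of_pos ht _)

lemma der_mono (D : Derivation ℤ ℝ ℝ) (x t : ℝ) (hx : 0 < x) (ht : 0 < t) (hDx : D x = x)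
    (P : ℚ × ℚ) : D (mono x t P) = (P.1 + P.2 * (D t / t)) * mono x t P := by
  unfold mono
  rw [D.leibniz, der_rpow D x hx, der_rpow D t ht, hDx, div_self hx.ne']
  simp only [smul_eq_mul]
  ring

/-- the relation given by a constant binomial -/
theorem bin_rel (x t : ℝ) (hx : 0 < x) (ht : 0 < t) (D : Derivation ℤ ℝ ℝ) (hDx : D x = x)
    (P Q : ℚ × ℚ) (a : ℝ) (hA : BAdm x t (Mb.bin P Q a)) (h : D (bval x t (Mb.bin P Q a)) = 0) :
    (P.1 + P.2 * (D t / t) : ℝ) ≠ 0 ∧ (Q.1 + Q.2 * (D t / t) : ℝ) ≠ 0 ∧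
      (P.1 + P.2 * (D t / t) : ℝ) - (Q.1 + Q.2 * (D t / t)) ≠ 0 ∧
      (det2 P Q : ℝ) * D (D t / t) = (P.1 + P.2 * (D t / t)) * (Q.1 + Q.2 * (D t / t)) *
        ((P.1 + P.2 * (D t / t)) - (Q.1 + Q.2 * (D t / t))) := by
  obtain ⟨hdet, ha, hal, hv⟩ := hA
  have haz : IsAlgebraic ℤ a := (IsFractionRing.isAlgebraic_iff ℤ ℚ ℝ).2 hal
  have hDa := der_alg D a haz
  have hM := mono_pos x t hx ht P
  have hN := mono_pos x t hx ht Q
  have hDM := der_mono D x t hx ht hDx P
  have hDN := der_mono D x t hx ht hDx Q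
  set M := mono x t P
  set N := mono x t Q
  set τ := D t / t
  set l : ℝ := P.1 + P.2 * τ with hl
  set m : ℝ := Q.1 + Q.2 * τ with hm
  have hdet' : (P.1 * Q.2 - P.2 * Q.1 : ℝ) ≠ 0 := by
    have h1 : ((det2 P Q : ℚ) : ℝ) ≠ 0 := by exact_mod_cast hdet
    unfold det2 at h1
    push_cast at h1
    exact h1
  have hDaN : D (a * N) = m * (a * N) := by
    rw [D.leibniz, hDa, hDN, smul_zero, add_zero, smul_eq_mul]
    ring
  have h2 : l * M + m * (a * N) = 0 := by
    have h3 : D (M + a * N) = 0 := h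
    rw [map_add, hDM, hDaN] at h3
    exact h3
  have haN : a * N ≠ 0 := mul_ne_zero ha hN.ne'
  have both : l = 0 → m = 0 → False := by
    intro e1 e2
    apply hdet'
    rw [hl] at e1
    rw [hm] at e2
    linear_combination (Q.2 : ℝ) * e1 - (P.2 : ℝ) * e2
  have hl0 : l ≠ 0 := by
    intro e1
    apply both e1
    rw [e1, zero_mul, zero_add] at h2
    exact (mul_eq_zero.1 h2).resolve_right haN
  have hm0 : m ≠ 0 := by
    intro e1
    refine both ?_ e1
    rw [e1, zero_mul, add_zero] at h2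
    exact (mul_eq_zero.1 h2).resolve_right hM.ne'
  have hlm : l - m ≠ 0 := by
    intro e1
    have e2 : l = m := by linarith
    rw [← e2] at h2
    have h3 : l * (M + a * N) = 0 := by linarith
    exact (mul_ne_zero hl0 hv) h3
  have hDl : D l = P.2 * D τ := by
    rw [hl, map_add, D.leibniz, der_rat, der_rat]
    simp
  have hDm : D m = Q.2 * D τ := by
    rw [hm, map_add, D.leibniz, der_rat, der_rat]
    simp
  have h4 : D (l * M + m * (a * N)) =
      (P.2 * D τ) * M + l * (l * M) + ((Q.2 * D τ) * (a * N) + m * (m * (a * N))) := by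
    rw [map_add, D.leibniz, D.leibniz m, hDM, hDaN, hDl, hDm]
    simp only [smul_eq_mul]
    ring
  rw [h2, map_zero] at h4
  refine ⟨hl0, hm0, hlm, ?_⟩
  have h5 : M * ((det2 P Q : ℝ) * D τ - l * m * (l - m)) = 0 := by
    have hd : (det2 P Q : ℝ) = P.1 * Q.2 - P.2 * Q.1 := by unfold det2; push_cast; ring
    have hd2 : (det2 P Q : ℝ) = l * Q.2 - P.2 * m := by rw [hd, hl, hm]; ring
    rw [hd2]
    linear_combination m * h4 + (Q.2 * D τ + m ^ 2) * h2
  have h6 := (mul_eq_zero.1 h5).resolve_left hM.ne'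
  linarith

/-- coefficients of a cubic with a transcendental root -/
theorem cubic_zero (r : ℝ) (hr : ¬ IsAlgebraic ℚ r) (c0 c1 c2 c3 : ℚ)
    (h : (c3 : ℝ) * r ^ 3 + c2 * r ^ 2 + c1 * r + c0 = 0) : c0 = 0 ∧ c1 = 0 ∧ c2 = 0 ∧ c3 = 0 := by
  let f : ℚ[X] := C c3 * X ^ 3 + C c2 * X ^ 2 + C c1 * X + C c0
  have hf : f = 0 := by
    by_contra hne
    apply hr
    refine ⟨f, hne, ?_⟩
    simp only [f, map_add, map_mul, map_pow, aeval_C, aeval_X]
    simpa using h
  have hk : ∀ k, f.coeff k = 0 := fun k => by rw [hf, coeff_zero]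
  have e0 := hk 0
  have e1 := hk 1
  have e2 := hk 2
  have e3 := hk 3
  simp [f, coeff_X, coeff_X_pow, coeff_C] at e0 e1 e2 e3
  exact ⟨e0, e1, e2, e3⟩

/-- the six solutions -/
theorem six (α β γ δ : ℚ) (hD : α * δ - β * γ ≠ 0) (h3 : α * γ * (α - γ) = 0)
    (h0 : β * δ * (β - δ) = 0)
    (h2 : (α * δ + β * γ) * (α - γ) + α * γ * (β - δ) - (α * δ - β * γ) = 0)
    (h1 : (α * δ + β * γ) * (β - δ) + β * δ * (α - γ) + (α * δ - β * γ) = 0) :
    (α = 1 ∧ β = 0 ∧ γ = 0 ∧ δ = 1) ∨ (α = 0 ∧ β = 1 ∧ γ = 1 ∧ δ = 0) ∨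
    (α = 0 ∧ β = -1 ∧ γ = 1 ∧ δ = -1) ∨ (α = 1 ∧ β = -1 ∧ γ = 0 ∧ δ = -1) ∨
    (α = -1 ∧ β = 0 ∧ γ = -1 ∧ δ = 1) ∨ (α = -1 ∧ β = 1 ∧ γ = -1 ∧ δ = 0) := by
  rcases mul_eq_zero.1 h3 with h | hc
  · rcases mul_eq_zero.1 h with ha | ha
    · subst ha
      rcases mul_eq_zero.1 h0 with h | hb
      · rcases mul_eq_zero.1 h with hb | hb
        · exact absurd (by rw [hb]; ring) hD
        · subst hb
          have hbg : β * γ ≠ 0 := fun e => hD (by linarith)
          have e1 : β * γ * (γ - 1) = 0 := by linear_combination -h2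
          have e2 : β * γ * (β - 1) = 0 := by linear_combination h1
          have f1 := (mul_eq_zero.1 e1).resolve_left hbg
          have f2 := (mul_eq_zero.1 e2).resolve_left hbg
          exact Or.inr (Or.inl ⟨rfl, by linarith, by linarith, rfl⟩)
      · have hb' : δ = β := by linarith
        subst hb'
        have hbg : δ * γ ≠ 0 := fun e => hD (by linarith)
        have e1 : δ * γ * (γ - 1) = 0 := by linear_combination -h2
        have e2 : δ * γ * (δ + 1) = 0 := by linear_combination -h1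
        have f1 := (mul_eq_zero.1 e1).resolve_left hbg
        have f2 := (mul_eq_zero.1 e2).resolve_left hbg
        exact Or.inr (Or.inr (Or.inl ⟨rfl, by linarith, by linarith, by linarith⟩))
    · subst ha
      rcases mul_eq_zero.1 h0 with h | hb
      · rcases mul_eq_zero.1 h with hb | hb
        · subst hb
          have hbg : α * δ ≠ 0 := fun e => hD (by linarith)
          have e1 : α * δ * (α - 1) = 0 := by linear_combination h2
          have e2 : α * δ * (δ - 1) = 0 := by linear_combination -h1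
          have f1 := (mul_eq_zero.1 e1).resolve_left hbg
          have f2 := (mul_eq_zero.1 e2).resolve_left hbg
          exact Or.inl ⟨by linarith, rfl, rfl, by linarith⟩
        · exact absurd (by rw [hb]; ring) hD
      · have hb' : β = δ := by linarith
        subst hb'
        have hbg : α * β ≠ 0 := fun e => hD (by linarith)
        have e1 : α * β * (α - 1) = 0 := by linear_combination h2
        have e2 : α * β * (β + 1) = 0 := by linear_combination h1
        have f1 := (mul_eq_zero.1 e1).resolve_left hbg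
        have f2 := (mul_eq_zero.1 e2).resolve_left hbg
        exact Or.inr (Or.inr (Or.inr (Or.inl ⟨by linarith, by linarith, rfl, by linarith⟩)))
  · have hc' : γ = α := by linarith
    subst hc'
    rcases mul_eq_zero.1 h0 with h | hb
    · rcases mul_eq_zero.1 h with hb | hb
      · subst hb
        have hbg : γ * δ ≠ 0 := fun e => hD (by linarith)
        have e1 : γ * δ * (γ + 1) = 0 := by linear_combination -h2
        have e2 : γ * δ * (δ - 1) = 0 := by linear_combination -h1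
        have f1 := (mul_eq_zero.1 e1).resolve_left hbg
        have f2 := (mul_eq_zero.1 e2).resolve_left hbg
        exact Or.inr (Or.inr (Or.inr (Or.inr (Or.inl
          ⟨by linarith, rfl, by linarith, by linarith⟩))))
      · subst hb
        have hbg : β * γ ≠ 0 := fun e => hD (by linarith)
        have e1 : β * γ * (γ + 1) = 0 := by linear_combination h2
        have e2 : β * γ * (β - 1) = 0 := by linear_combination h1
        have f1 := (mul_eq_zero.1 e1).resolve_left hbg
        have f2 := (mul_eq_zero.1 e2).resolve_left hbg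
        exact Or.inr (Or.inr (Or.inr (Or.inr (Or.inr
          ⟨by linarith, by linarith, by linarith, rfl⟩))))
    · exact absurd (by rw [show β = δ by linarith]; ring) hD

end Pool.Agent.R105.PE
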