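import Pool.Agent.H23R2.Der

/-!
# Derivations that detect transcendental elements over a subring
-/

set_option autoImplicit false

namespace Pool.Agent.R105.PE

open Polynomial

universe u

/-- an element which is transcendental over a field `K` is detected by a derivation killing `K` -/
theorem exists_der {K : Type} {L : Type} [Field K] [Field L] [Algebra K L] [CharZero K] [CharZero L]
    (δ : L) (hδ : Transcendental K δ) :
    ∃ D : Derivation ℤ L L, (∀ k : K, D (algebraMap K L k) = 0) ∧ D δ ≠ 0 := by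
  let f : K[X] →+* L := (aeval δ : K[X] →ₐ[K] L).toRingHom
  have hf : Function.Injective f := transcendental_iff_injective.1 hδ
  let g0 : FractionRing K[X] →+* L := IsFractionRing.lift (K := FractionRing K[X]) hf
  let e : DualNumber L := TrivSqZeroExt.inl δ + TrivSqZeroExt.inr 1
  let π : DualNumber L →+* L := (TrivSqZeroExt.fstHom L L L).toRingHom
  let t : K[X] →+* DualNumber L := (aeval e : K[X] →ₐ[K] DualNumber L).toRingHom
  have hπt : π.comp t = f := by
    apply Polynomial.ringHom_ext'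
    · ext k
      show π (aeval e (C k)) = aeval δ (C k)
      rw [aeval_C, aeval_C]
      rfl
    · show π (aeval e X) = aeval δ X
      rw [aeval_X, aeval_X]
      show TrivSqZeroExt.fst e = δ
      simp [e]
  have ht : ∀ y : nonZeroDivisors K[X], IsUnit (t y) := by
    intro y
    rw [TrivSqZeroExt.isUnit_iff_isUnit_fst]
    have h1 : (t y).fst = f y := RingHom.congr_fun hπt y
    rw [h1, isUnit_iff_ne_zero]
    intro h2
    rw [map_eq_zero_iff f hf] at h2
    exact nonZeroDivisors.ne_zero y.2 h2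
  let θ : FractionRing K[X] →+* DualNumber L := IsLocalization.lift ht
  have hθ : π.comp θ = g0 := by
    apply IsLocalization.ringHom_ext (nonZeroDivisors K[X])
    rw [RingHom.comp_assoc, IsLocalization.lift_comp, hπt]
    exact RingHom.ext fun x => (IsFractionRing.lift_algebraMap hf x).symm
  have hπs : Function.Surjective π := fun x => ⟨TrivSqZeroExt.inl x, rfl⟩
  have hsq : IsNilpotent (RingHom.ker π) := by
    refine ⟨2, ?_⟩
    have h1 : RingHom.ker π * RingHom.ker π ≤ ⊥ := by
      rw [Ideal.mul_le]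
      intro a ha b hb
      have ha' : a.fst = 0 := ha
      have hb' : b.fst = 0 := hb
      rw [Ideal.mem_bot]
      ext
      · simp [ha']
      · simp [ha', hb']
    have h2 : RingHom.ker π ^ 2 = RingHom.ker π * RingHom.ker π := sq _
    rw [h2]
    exact le_bot_iff.1 h1
  obtain ⟨Φ, hΦ1, hΦ2⟩ := Pool.Agent.H23R2.exists_lift g0 (DualNumber L) π hπs hsq θ hθ
  have hfst : ∀ x, (Φ x).fst = x := hΦ1
  let D : Derivation ℤ L L := Derivation.mk'
    ({ toFun := fun x => (Φ x).snd
       map_add' := fun x y => by simp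
       map_smul' := fun c x => by simp } : L →ₗ[ℤ] L)
    (by
      intro a b
      show (Φ (a * b)).snd = a • (Φ b).snd + b • (Φ a).snd
      rw [map_mul, TrivSqZeroExt.snd_mul, hfst, hfst]
      simp [mul_comm])
  refine ⟨D, fun k => ?_, ?_⟩
  · have h1 : g0 (algebraMap K[X] _ (C k)) = algebraMap K L k := by
      rw [IsFractionRing.lift_algebraMap]
      show aeval δ (C k) = _
      rw [aeval_C]
    show (Φ (algebraMap K L k)).snd = 0
    rw [← h1, hΦ2, IsLocalization.lift_eq]
    show (aeval e (C k)).snd = 0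
    rw [aeval_C]
    rfl
  · have h1 : g0 (algebraMap K[X] _ X) = δ := by
      rw [IsFractionRing.lift_algebraMap]
      show aeval δ X = δ
      rw [aeval_X]
    show (Φ δ).snd ≠ 0
    rw [← h1, hΦ2, IsLocalization.lift_eq]
    show (aeval e X).snd ≠ 0
    rw [aeval_X]
    simp [e]

/-- a derivation kills the algebraic numbers -/
theorem der_alg {L : Type} [Field L] [CharZero L] (D : Derivation ℤ L L) (a : L)
    (ha : IsAlgebraic ℤ a) : D a = 0 := by
  classical
  obtain ⟨P, hP, hPa⟩ := ha
  have hex : ∃ n : ℕ, ∃ P : ℤ[X], P ≠ 0 ∧ aeval a P = 0 ∧ P.natDegree = n := ⟨_, P, hP, hPa, rfl⟩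
  obtain ⟨Q, hQ, hQa, hQn⟩ := Nat.find_spec hex
  have hd0 : Q.natDegree ≠ 0 := by
    intro h0
    rw [Polynomial.eq_C_of_natDegree_eq_zero h0, aeval_C] at hQa
    apply hQ
    rw [Polynomial.eq_C_of_natDegree_eq_zero h0]
    have : Q.coeff 0 = 0 := by
      have h1 : ((Q.coeff 0 : ℤ) : L) = 0 := by simpa using hQa
      exact_mod_cast h1
    rw [this, C_0]
  have hder : derivative Q ≠ 0 := by
    intro h0
    exact hd0 (Polynomial.derivative_eq_zero.1 h0)
  have hne : aeval a (derivative Q) ≠ 0 := by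
    intro h0
    have h1 : (derivative Q).natDegree < Q.natDegree := natDegree_derivative_lt hd0
    rw [hQn] at h1
    exact Nat.find_min hex h1 ⟨derivative Q, hder, h0, rfl⟩
  have h2 := D.map_aeval Q a
  rw [hQa, map_zero] at h2
  rw [smul_eq_mul] at h2
  exact (mul_eq_zero.1 h2.symm).resolve_left hne

/-- the version for a domain -/
theorem exists_der_dom {A : Type} [CommRing A] [IsDomain A] [Algebra A ℝ]
    (hinj : Function.Injective (algebraMap A ℝ)) (x : ℝ) (h : ¬ IsAlgebraic A x) :
    ∃ D : Derivation ℤ ℝ ℝ, (∀ a : A, D (algebraMap A ℝ a) = 0) ∧ D x ≠ 0 := by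
  haveI : FaithfulSMul A ℝ := (faithfulSMul_iff_algebraMap_injective A ℝ).2 hinj
  letI : Algebra (FractionRing A) ℝ := FractionRing.liftAlgebra A ℝ
  haveI : IsScalarTower A (FractionRing A) ℝ := FractionRing.isScalarTower_liftAlgebra A ℝ
  have htr : Transcendental (FractionRing A) x := by
    intro h1
    exact h ((IsFractionRing.isAlgebraic_iff A (FractionRing A) ℝ).2 h1)
  haveI : CharZero (FractionRing A) := (algebraMap (FractionRing A) ℝ).charZero
  obtain ⟨D, hD, hDx⟩ := exists_der x htr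
  refine ⟨D, fun a => ?_, hDx⟩
  have h1 := hD (algebraMap A (FractionRing A) a)
  rw [← IsScalarTower.algebraMap_apply] at h1
  exact h1

/-- the form in which derivations are used -/
theorem exists_der_pair (u v x : ℝ)
    (h : ¬ IsAlgebraic (Algebra.adjoin ℤ ({u, v} : Set ℝ)) x) :
    ∃ D : Derivation ℤ ℝ ℝ, D u = 0 ∧ D v = 0 ∧ D x = x := by
  obtain ⟨D, hD, hDx⟩ := exists_der_dom (A := Algebra.adjoin ℤ ({u, v} : Set ℝ))
    (fun a b hab => Subtype.ext hab) x h
  have hA : ∀ w : ℝ, w ∈ Algebra.adjoin ℤ ({u, v} : Set ℝ) → D w = 0 := fun w hw => hD ⟨w, hw⟩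
  refine ⟨(x / D x) • D, ?_, ?_, ?_⟩
  · rw [Derivation.smul_apply, hA u (Algebra.subset_adjoin (by simp)), smul_zero]
  · rw [Derivation.smul_apply, hA v (Algebra.subset_adjoin (by simp)), smul_zero]
  · rw [Derivation.smul_apply, smul_eq_mul, div_mul_cancel₀ _ hDx]

/-- powers with rational exponents -/
theorem der_rpow (D : Derivation ℤ ℝ ℝ) (x : ℝ) (hx : 0 < x) (p : ℚ) :
    D (x ^ (p : ℝ)) = p * x ^ (p : ℝ) * (D x / x) := by
  have hy : 0 < x ^ (p : ℝ) := Real.rpow_pos_of_pos hx _
  set y := x ^ (p : ℝ) with hydef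
  have hden : (p.den : ℝ) ≠ 0 := by exact_mod_cast p.den_ne_zero
  have hrel : y ^ (p.den : ℤ) = x ^ (p.num : ℤ) := by
    rw [hydef, ← Real.rpow_intCast, ← Real.rpow_mul hx.le, ← Real.rpow_intCast]
    congr 1
    have h1 : (p : ℝ) = p.num / p.den := by exact_mod_cast (Rat.num_div_den p).symm
    rw [h1]
    push_cast
    field_simp
  have h1 := congrArg D hrel
  rw [D.leibniz_zpow, D.leibniz_zpow] at h1
  have h2 : y ^ ((p.den : ℤ) - 1) = x ^ (p.num : ℤ) / y := by
    rw [← hrel, zpow_sub_one₀ hy.ne', div_eq_mul_inv]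
  have h3 : x ^ ((p.num : ℤ) - 1) = x ^ (p.num : ℤ) / x := by
    rw [zpow_sub_one₀ hx.ne', div_eq_mul_inv]
  rw [h2, h3] at h1
  simp only [smul_eq_mul, zsmul_eq_mul] at h1
  have hxz : x ^ (p.num : ℤ) ≠ 0 := zpow_ne_zero _ hx.ne'
  have hp : (p : ℝ) = p.num / p.den := by exact_mod_cast (Rat.num_div_den p).symm
  rw [hp]
  push_cast at h1
  field_simp at h1 ⊢
  linarith

end Pool.Agent.R105.PE
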