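import Pool.Agent.R105.PE.Der
import Pool.Agent.R473.JC.Pairs

/-!
# The family `x ^ p + a t ^ q`, `x ^ p t`
-/

set_option autoImplicit false

namespace Pool.Agent.R105.PE

open Polynomial Pool.Agent.R356 Pool.Agent.TH456.TM

/-- the members of the family: `sum p q a` is `x ^ p + a t ^ q`, `prod p` is `x ^ p t` -/
inductive Mem : Type
  | sum (p q : ℚ) (a : ℝ) : Mem
  | prod (p : ℚ) : Mem

/-- the value at `(x, t)` -/
noncomputable def val (x t : ℝ) : Mem → ℝ
  | Mem.sum p q a => x ^ (p : ℝ) + a * t ^ (q : ℝ)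
  | Mem.prod p => x ^ (p : ℝ) * t

/-- `a` is a nonzero algebraic number, the exponents are not zero and the value is not zero -/
def Adm (x t : ℝ) : Mem → Prop
  | Mem.sum p q a => p ≠ 0 ∧ q ≠ 0 ∧ a ≠ 0 ∧ IsAlgebraic ℚ a ∧ x ^ (p : ℝ) + a * t ^ (q : ℝ) ≠ 0
  | Mem.prod _ => True

/-- the two relations given by a constant sum -/
theorem sum_rel (x t : ℝ) (hx : 0 < x) (ht : 0 < t) (D : Derivation ℤ ℝ ℝ) (hDx : D x = x)
    (p q : ℚ) (a : ℝ) (hA : Adm x t (Mem.sum p q a)) (h : D (val x t (Mem.sum p q a)) = 0) :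
    D t / t ≠ 0 ∧ (p : ℝ) * x ^ (p : ℝ) + q * (D t / t) * (a * t ^ (q : ℝ)) = 0 ∧
      D (D t / t) = (D t / t) * (p - q * (D t / t)) ∧ (p : ℝ) - q * (D t / t) ≠ 0 := by
  obtain ⟨hp, hq, ha, hal, hv⟩ := hA
  have haz : IsAlgebraic ℤ a := (IsFractionRing.isAlgebraic_iff ℤ ℚ ℝ).2 hal
  have hX : 0 < x ^ (p : ℝ) := Real.rpow_pos_of_pos hx _
  have hT : 0 < t ^ (q : ℝ) := Real.rpow_pos_of_pos ht _
  have hDa := der_alg D a haz
  have hDX := der_rpow D x hx p
  rw [hDx, div_self hx.ne', mul_one] at hDX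
  have hDT := der_rpow D t ht q
  set X := x ^ (p : ℝ)
  set T := t ^ (q : ℝ)
  set τ := D t / t
  have h1 : D (a * T) = q * τ * (a * T) := by
    rw [D.leibniz, hDa, hDT, smul_zero, add_zero, smul_eq_mul]
    ring
  have h2 : (p : ℝ) * X + q * τ * (a * T) = 0 := by
    have h3 : D (X + a * T) = 0 := h
    rw [map_add, hDX, h1] at h3
    exact h3
  have hp' : (p : ℝ) ≠ 0 := by exact_mod_cast hp
  have hq' : (q : ℝ) ≠ 0 := by exact_mod_cast hq
  have hτ : τ ≠ 0 := by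
    intro h0
    rw [h0] at h2
    apply mul_ne_zero hp' hX.ne'
    linarith
  have hDp : D (p : ℝ) = 0 := der_alg D _ (by
    have : IsAlgebraic ℚ ((p : ℚ) : ℝ) := isAlgebraic_algebraMap p
    exact (IsFractionRing.isAlgebraic_iff ℤ ℚ ℝ).2 this)
  have hDq : D (q : ℝ) = 0 := der_alg D _ (by
    have : IsAlgebraic ℚ ((q : ℚ) : ℝ) := isAlgebraic_algebraMap q
    exact (IsFractionRing.isAlgebraic_iff ℤ ℚ ℝ).2 this)
  have h4 : D ((p : ℝ) * X + q * τ * (a * T)) =
      (p : ℝ) * (p * X) + (q * D τ * (a * T) + q * τ * (q * τ * (a * T))) := by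
    rw [map_add, D.leibniz, D.leibniz, D.leibniz (q : ℝ) τ, hDp, hDq, hDX, h1]
    simp only [smul_eq_mul]
    ring
  rw [h2, map_zero] at h4
  have hW : q * τ * (a * T) = - (p * X) := by linarith
  have hpX : (p : ℝ) * X ≠ 0 := mul_ne_zero hp' hX.ne'
  have h5 : D τ = τ * (p - q * τ) := by
    have h8 : (p : ℝ) * X * (D τ - τ * (p - q * τ)) = 0 := by
      linear_combination τ * h4 + (D τ + q * τ ^ 2) * hW
    have h9 := (mul_eq_zero.1 h8).resolve_left hpX
    linarith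
  refine ⟨hτ, h2, h5, ?_⟩
  intro h0
  apply hv
  have h6 : (q : ℝ) * τ = p := by linarith
  rw [h6] at h2
  have h7 : (p : ℝ) * (X + a * T) = 0 := by linarith
  exact (mul_eq_zero.1 h7).resolve_left hp'

/-- `D (D t / t) = 0` if `D t / t` is rational -/
theorem der_rat (D : Derivation ℤ ℝ ℝ) (r : ℚ) : D (r : ℝ) = 0 := by
  apply der_alg
  have : IsAlgebraic ℚ ((r : ℚ) : ℝ) := isAlgebraic_algebraMap r
  exact (IsFractionRing.isAlgebraic_iff ℤ ℚ ℝ).2 this

/-- two different members determine `x` up to algebraic dependence -/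
theorem alg_of_ne (x t : ℝ) (hx : 0 < x) (ht : 0 < t) (U V : Mem) (hU : Adm x t U)
    (hV : Adm x t V) (hUV : U ≠ V) :
    IsAlgebraic (Algebra.adjoin ℤ ({val x t U, val x t V} : Set ℝ)) x := by
  by_contra hcon
  obtain ⟨D, hDu, hDv, hDx⟩ := exists_der_pair _ _ x hcon
  have hprod : ∀ p : ℚ, D (val x t (Mem.prod p)) = 0 → D t / t = ((-p : ℚ) : ℝ) := by
    intro p h
    have h1 : D (x ^ (p : ℝ) * t) = 0 := h
    rw [D.leibniz, der_rpow D x hx p, hDx, div_self hx.ne'] at h1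
    simp only [smul_eq_mul, mul_one] at h1
    have hX : 0 < x ^ (p : ℝ) := Real.rpow_pos_of_pos hx _
    have h2 : x ^ (p : ℝ) * (D t + p * t) = 0 := by linarith
    have h3 := (mul_eq_zero.1 h2).resolve_left hX.ne'
    push_cast
    field_simp
    linarith
  have hmix : ∀ (p q : ℚ) (a : ℝ) (r : ℚ), Adm x t (Mem.sum p q a) →
      D (val x t (Mem.sum p q a)) = 0 → D t / t ≠ (r : ℝ) := by
    intro p q a r hA h h0
    obtain ⟨hτ, -, h5, h6⟩ := sum_rel x t hx ht D hDx p q a hA h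
    have h7 : D (D t / t) = 0 := by rw [h0]; exact der_rat D r
    rw [h7] at h5
    exact (mul_ne_zero hτ h6) h5.symm
  rcases U with ⟨p, q, a⟩ | p <;> rcases V with ⟨p', q', a'⟩ | p'
  · obtain ⟨hτ, h2, h5, -⟩ := sum_rel x t hx ht D hDx p q a hU hDu
    obtain ⟨-, h2', h5', -⟩ := sum_rel x t hx ht D hDx p' q' a' hV hDv
    have h6 : (p : ℝ) - q * (D t / t) = p' - q' * (D t / t) := by
      rw [h5] at h5'
      exact mul_left_cancel₀ hτ h5'
    have h7 : ((p - p' : ℚ) : ℝ) = ((q - q' : ℚ) : ℝ) * (D t / t) := by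
      push_cast
      linarith
    by_cases hq : q = q'
    · subst hq
      rw [sub_self, Rat.cast_zero, zero_mul] at h7
      have hp : p = p' := by
        have : (p - p' : ℚ) = 0 := by exact_mod_cast h7
        linarith
      subst hp
      have hT : 0 < t ^ (q : ℝ) := Real.rpow_pos_of_pos ht _
      have hq' : (q : ℝ) ≠ 0 := by exact_mod_cast hU.2.1
      have h8 : q * (D t / t) * t ^ (q : ℝ) * (a - a') = 0 := by linarith
      have h9 := (mul_eq_zero.1 h8).resolve_left (mul_ne_zero (mul_ne_zero hq' hτ) hT.ne')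
      apply hUV
      rw [sub_eq_zero.1 h9]
    · have hqq : ((q - q' : ℚ) : ℝ) ≠ 0 := by
        exact_mod_cast sub_ne_zero.2 hq
      refine hmix p q a ((p - p') / (q - q')) hU hDu ?_
      push_cast at h7 hqq ⊢
      rw [eq_div_iff hqq]
      linarith
  · exact hmix p q a (-p') hU hDu (hprod p' hDv)
  · exact hmix p' q' a' (-p) hV hDv (hprod p hDu)
  · have h1 := hprod p hDu
    have h2 := hprod p' hDv
    rw [h1] at h2
    apply hUV
    have h3 : (-p : ℚ) = -p' := by exact_mod_cast h2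
    rw [neg_injective h3]

/-- the joint measure for two different members -/
theorem joint_mem (x t : ℝ) (hx : 0 < x) (ht : 0 < t) (hm : MeasT (x : ℂ)) (U V : Mem)
    (hU : Adm x t U) (hV : Adm x t V) (hUV : U ≠ V) : JointR (val x t U) (val x t V) :=
  Pool.Agent.R473.JC.jointR_of_alg x hm _ _ (alg_of_ne x t hx ht U V hU hV hUV)

/-- two numbers with a joint measure are not both algebraic -/
theorem not_both (u v : ℝ) (h : JointR u v) (hu : IsAlgebraic ℚ u) (hv : IsAlgebraic ℚ v) :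
    False := by
  obtain ⟨P, hP, hPu⟩ := (IsFractionRing.isAlgebraic_iff ℤ ℚ ℝ).2 hu
  obtain ⟨Q, hQ, hQv⟩ := (IsFractionRing.isAlgebraic_iff ℤ ℚ ℝ).2 hv
  obtain ⟨κ, C, hκ, hC, hj⟩ := h (max P.natDegree Q.natDegree)
  obtain ⟨H, hH⟩ : ∃ H : ℝ, (∀ k, |((P.coeff k : ℤ) : ℝ)| ≤ H) ∧
      ∀ k, |((Q.coeff k : ℤ) : ℝ)| ≤ H := by
    refine ⟨max (ht P) (ht Q), fun k => (le_ht P k).trans (le_max_left _ _),
      fun k => (le_ht Q k).trans (le_max_right _ _)⟩
  have h1 := hj P Q hP hQ (le_max_left _ _) (le_max_right _ _) H hH.1 hH.2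
  rw [hPu, hQv, abs_zero, max_self] at h1
  have h2 : 1 ≤ H := one_le_of_coeff P hP H hH.1
  have h3 : 0 < C * H ^ (-κ) := by positivity
  linarith

end Pool.Agent.R105.PE
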