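import Pool.Agent.R105.PE.Main

/-!
# The statements used in the results
-/

set_option autoImplicit false

namespace Pool.Agent.R105.PE

open Polynomial Pool.Agent.R356 Pool.Agent.TH456.TM

/-- the triangles with the vertices `0, P, Q` and `0, P', Q'` are translates of each other -/
def TranslS (P Q P' Q' : ℚ × ℚ) : Prop :=
  ∃ w : ℚ × ℚ, ({0, P', Q'} : Set (ℚ × ℚ)) = {w, w + P, w + Q}

theorem transl_set (P Q P' Q' : ℚ × ℚ) (h : Transl P Q P' Q') : TranslS P Q P' Q' := by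
  rcases h with ⟨h1, h2⟩ | ⟨h1, h2⟩ | ⟨h1, h2⟩ | ⟨h1, h2⟩ | ⟨h1, h2⟩ | ⟨h1, h2⟩
  · refine ⟨0, ?_⟩
    rw [h1, h2, zero_add, zero_add]
  · refine ⟨0, ?_⟩
    rw [h1, h2, zero_add, zero_add]
    ext z
    simp only [Set.mem_insert_iff, Set.mem_singleton_iff]
    tauto
  · refine ⟨-Q, ?_⟩
    have e1 : -Q + P = P - Q := by abel
    have e2 : -Q + Q = 0 := by abel
    rw [h1, h2, e1, e2]
    ext z
    simp only [Set.mem_insert_iff, Set.mem_singleton_iff]
    tauto
  · refine ⟨-Q, ?_⟩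
    have e1 : -Q + P = P - Q := by abel
    have e2 : -Q + Q = 0 := by abel
    rw [h1, h2, e1, e2]
    ext z
    simp only [Set.mem_insert_iff, Set.mem_singleton_iff]
    tauto
  · refine ⟨-P, ?_⟩
    have e1 : -P + P = 0 := by abel
    have e2 : -P + Q = Q - P := by abel
    rw [h1, h2, e1, e2]
    ext z
    simp only [Set.mem_insert_iff, Set.mem_singleton_iff]
    tauto
  · refine ⟨-P, ?_⟩
    have e1 : -P + P = 0 := by abel
    have e2 : -P + Q = Q - P := by abel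
    rw [h1, h2, e1, e2]
    ext z
    simp only [Set.mem_insert_iff, Set.mem_singleton_iff]
    tauto

/-- the exceptions, with sets -/
def DepS : Mb → Mb → Prop
  | Mb.mon P, Mb.mon Q => det2 P Q = 0
  | Mb.bin P Q a, Mb.bin P' Q' a' => TranslS P Q P' Q' ∧ (P' = P → Q' = Q → a' = a)
  | _, _ => False

theorem depS_of_dep (U V : Mb) (h : Dep U V) : DepS U V := by
  rcases U with P | ⟨P, Q, a⟩ <;> rcases V with P' | ⟨P', Q', a'⟩
  · exact h
  · exact h
  · exact h
  · exact ⟨transl_set _ _ _ _ h.1, h.2⟩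

theorem bjointS (x t : ℝ) (hx : 0 < x) (ht : 0 < t) (hm : MeasT (x : ℂ)) (U V : Mb)
    (hU : BAdm x t U) (hV : BAdm x t V) (hUV : ¬ DepS U V) : JointR (bval x t U) (bval x t V) :=
  bjoint x t hx ht hm U V hU hV fun h => hUV (depS_of_dep U V h)

theorem bunique (x t : ℝ) (hx : 0 < x) (ht : 0 < t) (hm : MeasT (x : ℂ)) (U V : Mb)
    (hU : BAdm x t U) (hV : BAdm x t V) (h1 : IsAlgebraic ℚ (bval x t U))
    (h2 : IsAlgebraic ℚ (bval x t V)) : DepS U V := by
  by_contra hcon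
  exact not_both _ _ (bjointS x t hx ht hm U V hU hV hcon) h1 h2

/-- the real bases -/
def Base (x : ℝ) : Prop := x = Real.exp 1 ∨ x = Real.pi ∨ ∃ q : ℚ, 1 < q ∧ x = Real.log q

theorem base_pos (x : ℝ) (h : Base x) : 0 < x := by
  rcases h with rfl | rfl | ⟨q, hq, rfl⟩
  · exact Real.exp_pos 1
  · exact Real.pi_pos
  · exact Real.log_pos (by exact_mod_cast hq)

theorem base_meas (x : ℝ) (h : Base x) : MeasT (x : ℂ) := by
  apply Pool.Agent.R473.JC.measT_three
  rcases h with h | h | ⟨q, hq, h⟩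
  · exact Or.inl h
  · exact Or.inr (Or.inl h)
  · exact Or.inr (Or.inr ⟨q, by linarith, by linarith, h⟩)

theorem pw_eq (x θ : ℝ) (hx : 0 < x) (P : ℚ × ℚ) :
    x ^ ((P.1 : ℝ) + P.2 * θ) = mono x (x ^ θ) P := by
  unfold mono
  rw [Real.rpow_add hx, ← Real.rpow_mul hx.le, mul_comm θ]

end Pool.Agent.R105.PE
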