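import Pool.Agent.R105.PE.Bin

/-!
# Two binomials
-/

set_option autoImplicit false

namespace Pool.Agent.R105.PE

open Polynomial Pool.Agent.R356 Pool.Agent.TH456.TM

/-- a constant monomial -/
theorem mon_rel (x t : ℝ) (hx : 0 < x) (ht : 0 < t) (D : Derivation ℤ ℝ ℝ) (hDx : D x = x)
    (R : ℚ × ℚ) (h : D (bval x t (Mb.mon R)) = 0) : (R.1 : ℝ) + R.2 * (D t / t) = 0 := by
  have h1 := der_mono D x t hx ht hDx R
  have h2 : D (mono x t R) = 0 := h
  rw [h2] at h1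
  exact (mul_eq_zero.1 h1.symm).resolve_right (mono_pos x t hx ht R).ne'

/-- a binomial and a monomial -/
theorem bin_mon (x t : ℝ) (hx : 0 < x) (ht : 0 < t) (D : Derivation ℤ ℝ ℝ) (hDx : D x = x)
    (P Q : ℚ × ℚ) (a : ℝ) (hA : BAdm x t (Mb.bin P Q a)) (h : D (bval x t (Mb.bin P Q a)) = 0)
    (R : ℚ × ℚ) (hR : BAdm x t (Mb.mon R)) (h' : D (bval x t (Mb.mon R)) = 0) : False := by
  obtain ⟨hl, hm, hlm, hrel⟩ := bin_rel x t hx ht D hDx P Q a hA h
  have h1 := mon_rel x t hx ht D hDx R h'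
  have hR2 : R.2 ≠ 0 := by
    intro e
    rw [e, Rat.cast_zero, zero_mul, add_zero] at h1
    apply hR
    exact Prod.ext (by exact_mod_cast h1) e
  have hR2' : (R.2 : ℝ) ≠ 0 := by exact_mod_cast hR2
  have h2 : D t / t = ((-R.1 / R.2 : ℚ) : ℝ) := by
    push_cast
    rw [eq_div_iff hR2']
    linarith
  have h3 : D (D t / t) = 0 := by rw [h2]; exact der_rat D _
  rw [h3, mul_zero] at hrel
  exact (mul_ne_zero (mul_ne_zero hl hm) hlm) hrel.symm

/-- two binomials -/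
theorem bin_bin (x t : ℝ) (hx : 0 < x) (ht : 0 < t) (D : Derivation ℤ ℝ ℝ) (hDx : D x = x)
    (P Q P' Q' : ℚ × ℚ) (a a' : ℝ) (hA : BAdm x t (Mb.bin P Q a))
    (hA' : BAdm x t (Mb.bin P' Q' a')) (h : D (bval x t (Mb.bin P Q a)) = 0)
    (h' : D (bval x t (Mb.bin P' Q' a')) = 0) : Transl P Q P' Q' := by
  obtain ⟨hl, hm, hlm, hrel⟩ := bin_rel x t hx ht D hDx P Q a hA h
  obtain ⟨-, -, -, hrel'⟩ := bin_rel x t hx ht D hDx P' Q' a' hA' h'
  have hd : det2 P Q ≠ 0 := hA.1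
  have hd' : det2 P' Q' ≠ 0 := hA'.1
  obtain ⟨α, hα⟩ : ∃ α : ℚ, α = det2 P' Q / det2 P Q := ⟨_, rfl⟩
  obtain ⟨β, hβ⟩ : ∃ β : ℚ, β = det2 P P' / det2 P Q := ⟨_, rfl⟩
  obtain ⟨γ, hγ⟩ : ∃ γ : ℚ, γ = det2 Q' Q / det2 P Q := ⟨_, rfl⟩
  obtain ⟨δ, hδ⟩ : ∃ δ : ℚ, δ = det2 P Q' / det2 P Q := ⟨_, rfl⟩
  rw [eq_div_iff hd] at hα hβ hγ hδ
  unfold det2 at hd hd' hα hβ hγ hδ
  have e1 : P'.1 = α * P.1 + β * Q.1 :=
    mul_left_cancel₀ hd (by linear_combination (-P.1) * hα - Q.1 * hβ)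
  have e2 : P'.2 = α * P.2 + β * Q.2 :=
    mul_left_cancel₀ hd (by linear_combination (-P.2) * hα - Q.2 * hβ)
  have e3 : Q'.1 = γ * P.1 + δ * Q.1 :=
    mul_left_cancel₀ hd (by linear_combination (-P.1) * hγ - Q.1 * hδ)
  have e4 : Q'.2 = γ * P.2 + δ * Q.2 :=
    mul_left_cancel₀ hd (by linear_combination (-P.2) * hγ - Q.2 * hδ)
  set τ := D t / t
  obtain ⟨l, hldef⟩ : ∃ l : ℝ, l = P.1 + P.2 * τ := ⟨_, rfl⟩
  obtain ⟨m, hmdef⟩ : ∃ m : ℝ, m = Q.1 + Q.2 * τ := ⟨_, rfl⟩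
  rw [← hldef] at hl
  rw [← hmdef] at hm
  rw [← hldef, ← hmdef] at hlm hrel
  have f1 : (P'.1 : ℝ) = α * P.1 + β * Q.1 := by exact_mod_cast e1
  have f2 : (P'.2 : ℝ) = α * P.2 + β * Q.2 := by exact_mod_cast e2
  have f3 : (Q'.1 : ℝ) = γ * P.1 + δ * Q.1 := by exact_mod_cast e3
  have f4 : (Q'.2 : ℝ) = γ * P.2 + δ * Q.2 := by exact_mod_cast e4
  have g1 : (P'.1 : ℝ) + P'.2 * τ = α * l + β * m := by rw [f1, f2, hldef, hmdef]; ring
  have g2 : (Q'.1 : ℝ) + Q'.2 * τ = γ * l + δ * m := by rw [f3, f4, hldef, hmdef]; ring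
  rw [g1, g2] at hrel'
  have hdR : (det2 P Q : ℝ) ≠ 0 := by exact_mod_cast hA.1
  have hdd : (det2 P' Q' : ℝ) = (α * δ - β * γ) * det2 P Q := by
    unfold det2
    push_cast
    rw [f1, f2, f3, f4]
    ring
  -- the ratio is transcendental
  have hr : ¬ IsAlgebraic ℚ (l / m) := by
    intro hal
    have h0 : D (l / m) = 0 := der_alg D _ ((IsFractionRing.isAlgebraic_iff ℤ ℚ ℝ).2 hal)
    have hDl : D l = P.2 * D τ := by
      rw [hldef, map_add, D.leibniz, der_rat, der_rat]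
      simp
    have hDm : D m = Q.2 * D τ := by
      rw [hmdef, map_add, D.leibniz, der_rat, der_rat]
      simp
    have h1 : D l = (l / m) * D m := by
      have h2 : l = (l / m) * m := by field_simp
      have h3 := congrArg D h2
      rw [D.leibniz, h0, smul_zero, add_zero, smul_eq_mul] at h3
      exact h3
    rw [hDl, hDm] at h1
    have h2 : (P.2 * m - Q.2 * l) * D τ = 0 := by
      field_simp at h1
      linarith
    have h3 : (P.2 * m - Q.2 * l : ℝ) = - det2 P Q := by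
      unfold det2
      push_cast
      rw [hldef, hmdef]
      ring
    rw [h3] at h2
    have h4 : (det2 P Q : ℝ) * D τ = 0 := by linarith
    rw [h4] at hrel
    exact (mul_ne_zero (mul_ne_zero hl hm) hlm) hrel.symm
  have hid : (α * δ - β * γ : ℝ) * (l * m * (l - m)) =
      (α * l + β * m) * (γ * l + δ * m) * ((α * l + β * m) - (γ * l + δ * m)) := by
    rw [← hrel', ← hrel, hdd]
    ring
  have hcub : ((α * γ * (α - γ) : ℚ) : ℝ) * (l / m) ^ 3 +
      (((α * δ + β * γ) * (α - γ) + α * γ * (β - δ) - (α * δ - β * γ) : ℚ) : ℝ) * (l / m) ^ 2 +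
      (((α * δ + β * γ) * (β - δ) + β * δ * (α - γ) + (α * δ - β * γ) : ℚ) : ℝ) * (l / m) +
      ((β * δ * (β - δ) : ℚ) : ℝ) = 0 := by
    push_cast
    field_simp
    linear_combination -hid
  obtain ⟨c0, c1, c2, c3⟩ := cubic_zero _ hr _ _ _ _ hcub
  have hDt : α * δ - β * γ ≠ 0 := by
    intro h0
    apply hd'
    have h1 : (det2 P' Q' : ℝ) = 0 := by
      rw [hdd]
      have : (α * δ - β * γ : ℝ) = 0 := by exact_mod_cast h0
      rw [this, zero_mul]
    have h2 : det2 P' Q' = 0 := by exact_mod_cast h1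
    exact h2
  unfold Transl
  rcases six α β γ δ hDt c3 c0 c2 c1 with ⟨s1, s2, s3, s4⟩ | ⟨s1, s2, s3, s4⟩ | ⟨s1, s2, s3, s4⟩ |
    ⟨s1, s2, s3, s4⟩ | ⟨s1, s2, s3, s4⟩ | ⟨s1, s2, s3, s4⟩ <;>
    rw [s1, s2] at e1 e2 <;> rw [s3, s4] at e3 e4
  · left
    exact ⟨Prod.ext (by rw [e1]; ring) (by rw [e2]; ring), Prod.ext (by rw [e3]; ring)
      (by rw [e4]; ring)⟩
  · right; left
    exact ⟨Prod.ext (by rw [e1]; ring) (by rw [e2]; ring), Prod.ext (by rw [e3]; ring)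
      (by rw [e4]; ring)⟩
  · right; right; left
    exact ⟨Prod.ext (by rw [e1, Prod.fst_neg]; ring) (by rw [e2, Prod.snd_neg]; ring),
      Prod.ext (by rw [e3, Prod.fst_sub]; ring) (by rw [e4, Prod.snd_sub]; ring)⟩
  · right; right; right; left
    exact ⟨Prod.ext (by rw [e1, Prod.fst_sub]; ring) (by rw [e2, Prod.snd_sub]; ring),
      Prod.ext (by rw [e3, Prod.fst_neg]; ring) (by rw [e4, Prod.snd_neg]; ring)⟩
  · right; right; right; right; left
    exact ⟨Prod.ext (by rw [e1, Prod.fst_neg]; ring) (by rw [e2, Prod.snd_neg]; ring),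
      Prod.ext (by rw [e3, Prod.fst_sub]; ring) (by rw [e4, Prod.snd_sub]; ring)⟩
  · right; right; right; right; right
    exact ⟨Prod.ext (by rw [e1, Prod.fst_sub]; ring) (by rw [e2, Prod.snd_sub]; ring),
      Prod.ext (by rw [e3, Prod.fst_neg]; ring) (by rw [e4, Prod.snd_neg]; ring)⟩

/-- independent members determine `x` up to algebraic dependence -/
theorem balg (x t : ℝ) (hx : 0 < x) (ht : 0 < t) (U V : Mb) (hU : BAdm x t U)
    (hV : BAdm x t V) (hUV : ¬ Dep U V) :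
    IsAlgebraic (Algebra.adjoin ℤ ({bval x t U, bval x t V} : Set ℝ)) x := by
  by_contra hcon
  obtain ⟨D, hDu, hDv, hDx⟩ := exists_der_pair _ _ x hcon
  rcases U with P | ⟨P, Q, a⟩ <;> rcases V with P' | ⟨P', Q', a'⟩
  · have h1 := mon_rel x t hx ht D hDx P hDu
    have h2 := mon_rel x t hx ht D hDx P' hDv
    apply hUV
    change det2 P P' = 0
    by_cases hz : P.2 = 0
    · exfalso
      apply hU
      rw [hz, Rat.cast_zero, zero_mul, add_zero] at h1
      exact Prod.ext (by exact_mod_cast h1) hz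
    · have h3 : ((det2 P P' : ℚ) : ℝ) = 0 := by
        unfold det2
        push_cast
        linear_combination (P'.2 : ℝ) * h1 - (P.2 : ℝ) * h2
      exact_mod_cast h3
  · exact bin_mon x t hx ht D hDx P' Q' a' hV hDv P hU hDu
  · exact bin_mon x t hx ht D hDx P Q a hU hDu P' hV hDv
  · have h1 := bin_bin x t hx ht D hDx P Q P' Q' a a' hU hV hDu hDv
    apply hUV
    refine ⟨h1, fun e1 e2 => ?_⟩
    subst e1
    subst e2
    by_contra hne
    obtain ⟨-, hm, -, -⟩ := bin_rel x t hx ht D hDx _ _ a hU hDu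
    have hN := mono_pos x t hx ht Q'
    have hDN := der_mono D x t hx ht hDx Q'
    have h2 : D (mono x t P' + a * mono x t Q') = 0 := hDu
    have h3 : D (mono x t P' + a' * mono x t Q') = 0 := hDv
    have haz : D a = 0 := der_alg D a ((IsFractionRing.isAlgebraic_iff ℤ ℚ ℝ).2 hU.2.2.1)
    have haz' : D a' = 0 := der_alg D a' ((IsFractionRing.isAlgebraic_iff ℤ ℚ ℝ).2 hV.2.2.1)
    rw [map_add, D.leibniz, haz, smul_zero, add_zero, hDN, smul_eq_mul] at h2
    rw [map_add, D.leibniz, haz', smul_zero, add_zero, hDN, smul_eq_mul] at h3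
    have h4 : (a' - a) * ((Q'.1 + Q'.2 * (D t / t)) * mono x t Q') = 0 := by linarith
    rcases mul_eq_zero.1 h4 with h5 | h5
    · exact hne (by linarith)
    · exact (mul_ne_zero hm hN.ne') h5

/-- the joint measure of two independent members -/
theorem bjoint (x t : ℝ) (hx : 0 < x) (ht : 0 < t) (hm : MeasT (x : ℂ)) (U V : Mb)
    (hU : BAdm x t U) (hV : BAdm x t V) (hUV : ¬ Dep U V) : JointR (bval x t U) (bval x t V) :=
  Pool.Agent.R473.JC.jointR_of_alg x hm _ _ (balg x t hx ht U V hU hV hUV)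

end Pool.Agent.R105.PE
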